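import Pool.Agent.H95.INS.Targets3

open MeasureTheory ProbabilityTheory
open scoped ENNReal

namespace Pool.Agent.H18.INS

open Pool.Agent.H95.INS Pool.Agent.H99.NS Pool.Agent.H22.LPP

theorem rpow_third (m : ℕ) : ((8 * 64 ^ m : ℕ) : ℝ) ^ (1 / 3 : ℝ) = 2 * 4 ^ m := by
  have h : ((8 * 64 ^ m : ℕ) : ℝ) = (2 * 4 ^ m : ℝ) ^ (3 : ℝ) := by
    rw [show (3 : ℝ) = ((3 : ℕ) : ℝ) by norm_num, Real.rpow_natCast]
    push_cast
    rw [mul_pow, ← pow_mul, mul_comm m 3, pow_mul]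
    norm_num
  rw [h, ← Real.rpow_mul (by positivity)]
  norm_num

theorem rpow_two_third (m : ℕ) : ((8 * 64 ^ m : ℕ) : ℝ) ^ (2 / 3 : ℝ) = 4 * 16 ^ m := by
  have h : (2 / 3 : ℝ) = (1 / 3 : ℝ) * ((2 : ℕ) : ℝ) := by norm_num
  rw [h, Real.rpow_mul (by positivity), rpow_third, Real.rpow_natCast, mul_pow, ← pow_mul,
    mul_comm m 2, pow_mul]
  norm_num

theorem window (a R x : ℤ) (ha : 0 < a) (hx : |x| ≤ R * (4 * a)) :
    ∃ i ∈ Finset.Icc (-(4 * R)) (4 * R), |x - i * a| ≤ a := by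
  rw [abs_le] at hx
  refine ⟨x / a, ?_, ?_⟩
  · rw [Finset.mem_Icc]
    constructor
    · rw [Int.le_ediv_iff_mul_le ha]
      nlinarith [hx.1]
    · have : x / a < 4 * R + 1 := by
        rw [Int.ediv_lt_iff_lt_mul ha]
        nlinarith [hx.2]
      omega
  · have h1 := Int.emod_nonneg x ha.ne'
    have h2 := Int.emod_lt_of_pos x ha
    have h3 := Int.emod_def x a
    rw [abs_le]
    constructor
    · nlinarith
    · nlinarith

theorem pf_IS : T_IS := by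
  intro hB q cs hq0 hq1 hcs hU ε hε
  obtain ⟨K₀, hK₀, hK⟩ := hB q cs hq0 hq1 hcs hU ε hε
  refine ⟨K₀, hK₀, fun K hKK R hR hRK => ?_⟩
  obtain ⟨L₀, hL₀⟩ := hK K hKK
  have hR1 : (1 : ℝ) ≤ (R : ℝ) := by exact_mod_cast hR
  refine ⟨L₀ + 1, by omega, fun k hk s => ?_⟩
  obtain ⟨m, rfl⟩ : ∃ m, k = m + 1 := ⟨k - 1, by omega⟩
  rw [Nat.add_sub_cancel]
  have hLm : L₀ ≤ 8 * 64 ^ m := by
    have h1 : m < 64 ^ m := Nat.lt_pow_self (by norm_num)
    omega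
  set a : ℤ := 4 * 16 ^ m with ha
  have ha0 : 0 < a := by positivity
  have haR : (a : ℝ) = 4 * 16 ^ m := by rw [ha]; push_cast; ring
  have hE : ∀ i ∈ Finset.Icc (-(4 * R)) (4 * R), ∀ j ∈ Finset.Icc (-(4 * R)) (4 * R),
      |(((j - i) * a : ℤ) : ℝ)| ≤ K * ((8 * 64 ^ m : ℕ) : ℝ) ^ (2 / 3 : ℝ) := by
    intro i hi j hj
    rw [Finset.mem_Icc] at hi hj
    rw [rpow_two_third, ← haR]
    have haRpos : (0 : ℝ) < a := by exact_mod_cast ha0
    push_cast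
    rw [abs_mul, abs_of_pos haRpos]
    apply mul_le_mul_of_nonneg_right _ haRpos.le
    have h1 : |((j : ℝ) - i)| ≤ 8 * R := by
      rw [abs_le]
      constructor
      · have : -(8 * R) ≤ j - i := by omega
        have h2 : ((-(8 * R) : ℤ) : ℝ) ≤ ((j - i : ℤ) : ℝ) := by exact_mod_cast this
        push_cast at h2
        linarith
      · have : j - i ≤ 8 * R := by omega
        have h2 : ((j - i : ℤ) : ℝ) ≤ ((8 * R : ℤ) : ℝ) := by exact_mod_cast this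
        push_cast at h2
        linarith
    linarith
  -- the events
  have hbound : ∀ i ∈ Finset.Icc (-(4 * R)) (4 * R), ∀ j ∈ Finset.Icc (-(4 * R)) (4 * R),
      PE q {ω | ∃ x y : ℤ, Reach (s, x) (s + (8 * 64 ^ m : ℕ), y) ∧
        |((x - i * a : ℤ) : ℝ)| ≤ (a : ℝ) ∧ |((y - j * a : ℤ) : ℝ)| ≤ (a : ℝ) ∧
        par q (s, x) (s + (8 * 64 ^ m : ℕ), y) + K * (2 * 4 ^ m) ≤
          T ω (s, x) (s + (8 * 64 ^ m : ℕ), y)} ≤
      ENNReal.ofReal (Real.exp (-((cs - ε) * K ^ ((3 : ℝ) / 2)))) := by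
    intro i hi j hj
    have h := hL₀ (8 * 64 ^ m) hLm (s, i * a) ((j - i) * a) (hE i hi j hj)
    rw [rpow_third, rpow_two_third, ← haR] at h
    rw [show i * a + (j - i) * a = j * a by ring] at h
    rw [← ofReal_measureReal (measure_ne_top _ _)]
    apply ENNReal.ofReal_le_ofReal
    refine h.trans (le_of_eq ?_)
    congr 1
    ring
  have hsub : {ω : Env | ∃ x y : ℤ, |x| ≤ R * 16 ^ (m + 1) ∧ |y| ≤ R * 16 ^ (m + 1) ∧
      Reach (s, x) (s + 8 * 64 ^ m, y) ∧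
      par q (s, x) (s + 8 * 64 ^ m, y) + K / 2 * 4 ^ (m + 1) ≤
        T ω (s, x) (s + 8 * 64 ^ m, y)} ⊆
      ⋃ p ∈ Finset.Icc (-(4 * R)) (4 * R) ×ˢ Finset.Icc (-(4 * R)) (4 * R),
        {ω | ∃ x y : ℤ, Reach (s, x) (s + (8 * 64 ^ m : ℕ), y) ∧
        |((x - p.1 * a : ℤ) : ℝ)| ≤ (a : ℝ) ∧ |((y - p.2 * a : ℤ) : ℝ)| ≤ (a : ℝ) ∧
        par q (s, x) (s + (8 * 64 ^ m : ℕ), y) + K * (2 * 4 ^ m) ≤
          T ω (s, x) (s + (8 * 64 ^ m : ℕ), y)} := by
    rintro ω ⟨x, y, hx, hy, hreach, hT⟩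
    have hx' : |x| ≤ R * (4 * a) := by
      refine hx.trans (le_of_eq ?_)
      rw [ha]; ring
    have hy' : |y| ≤ R * (4 * a) := by
      refine hy.trans (le_of_eq ?_)
      rw [ha]; ring
    obtain ⟨i, hi, hxi⟩ := window a R x ha0 hx'
    obtain ⟨j, hj, hyj⟩ := window a R y ha0 hy'
    simp only [Set.mem_iUnion, Set.mem_ofPred_eq, Finset.mem_product, exists_prop]
    refine ⟨(i, j), ⟨hi, hj⟩, x, y, ?_, ?_, ?_, ?_⟩
    · push_cast; exact hreach
    · exact_mod_cast hxi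
    · exact_mod_cast hyj
    · push_cast
      refine le_trans (le_of_eq ?_) hT
      rw [pow_succ]; ring
  refine (measure_mono hsub).trans ?_
  refine (measure_biUnion_finset_le _ _).trans ?_
  refine (Finset.sum_le_card_nsmul _ _
    (ENNReal.ofReal (Real.exp (-((cs - ε) * K ^ ((3 : ℝ) / 2))))) ?_).trans ?_
  · intro p hp
    rw [Finset.mem_product] at hp
    exact hbound p.1 hp.1 p.2 hp.2
  · rw [nsmul_eq_mul, ← ENNReal.ofReal_natCast, ← ENNReal.ofReal_mul (by positivity)]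
    apply ENNReal.ofReal_le_ofReal
    apply mul_le_mul_of_nonneg_right _ (Real.exp_pos _).le
    rw [Finset.card_product]
    have hc : ((Finset.Icc (-(4 * R)) (4 * R)).card : ℝ) = 8 * R + 1 := by
      rw [Int.card_Icc]
      have h1 : (4 * R + 1 - -(4 * R)) = 8 * R + 1 := by ring
      rw [h1]
      have h2 : ((8 * R + 1).toNat : ℤ) = 8 * R + 1 := Int.toNat_of_nonneg (by omega)
      have h3 : (((8 * R + 1).toNat : ℤ) : ℝ) = ((8 * R + 1 : ℤ) : ℝ) := by rw [h2]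
      push_cast at h3
      exact h3
    push_cast
    rw [hc]
    nlinarith

end Pool.Agent.H18.INS
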